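import Mathlib
import Pool.Agent.TH396.IN.Fields

set_option autoImplicit false

/-!
# Waldschmidt constants of `r ≥ 3 ^ N` points of projective spaces

Let `N ≥ 2` and `r ≥ 3 ^ N`. If `X` is a set of `r` very general points of complex projective space
of dimension `N` then `α(I(X) ^ (n)) ≥ n r ^ (1 / N)` for all `n`. More generally a nonzero form
which vanishes to order at least `m j` at the `j`-th point has degree at least
`((m 1 + ... + m r) / r) r ^ (1 / N)`, and all this holds over every field of characteristic zero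
for points whose coordinates are algebraically independent over the rational numbers.
-/

namespace Pool.Agent.Results.MP_5499e5_ag.ManyPoints

open MvPolynomial

theorem result (N r : ℕ) (hN : 2 ≤ N) (hr : 3 ^ N ≤ r) :
    (∃ F : ℕ → MvPolynomial (Fin r × Fin (N + 1)) ℂ, (∀ i, F i ≠ 0) ∧
      ∀ P : Fin r → Fin (N + 1) → ℂ,
        (∀ i, MvPolynomial.eval (fun q : Fin r × Fin (N + 1) => P q.1 q.2) (F i) ≠ 0) →
        (∀ n d : ℕ, ∀ f : MvPolynomial (Fin (N + 1)) ℂ, f.IsHomogeneous d → f ≠ 0 →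
          (∀ j : Fin r, f ∈ (RingHom.ker (MvPolynomial.eval (P j))) ^ n) →
          (n : ℝ) * (r : ℝ) ^ ((1 : ℝ) / (N : ℝ)) ≤ (d : ℝ)) ∧
        ∀ (m : Fin r → ℕ) (d : ℕ) (f : MvPolynomial (Fin (N + 1)) ℂ), f.IsHomogeneous d → f ≠ 0 →
          (∀ j : Fin r, f ∈ (RingHom.ker (MvPolynomial.eval (P j))) ^ m j) →
          (∑ j, (m j : ℝ)) / r * (r : ℝ) ^ ((1 : ℝ) / (N : ℝ)) ≤ (d : ℝ)) ∧
    ∀ (K : Type) [Field K] [CharZero K] (P : Fin r → Fin (N + 1) → K),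
      AlgebraicIndependent ℚ (fun q : Fin r × Fin (N + 1) => P q.1 q.2) →
      (∀ n d : ℕ, ∀ f : MvPolynomial (Fin (N + 1)) K, f.IsHomogeneous d → f ≠ 0 →
        (∀ j : Fin r, f ∈ (RingHom.ker (MvPolynomial.eval (P j))) ^ n) →
        (n : ℝ) * (r : ℝ) ^ ((1 : ℝ) / (N : ℝ)) ≤ (d : ℝ)) ∧
      ∀ (m : Fin r → ℕ) (d : ℕ) (f : MvPolynomial (Fin (N + 1)) K), f.IsHomogeneous d → f ≠ 0 →
        (∀ j : Fin r, f ∈ (RingHom.ker (MvPolynomial.eval (P j))) ^ m j) →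
        (∑ j, (m j : ℝ)) / r * (r : ℝ) ^ ((1 : ℝ) / (N : ℝ)) ≤ (d : ℝ) := by
  obtain ⟨k, rfl⟩ : ∃ k, N = k + 2 := ⟨N - 2, by omega⟩
  have hr0 : (0 : ℝ) < r := by
    have h1 : 0 < 3 ^ (k + 2) := by positivity
    have h2 : 0 < r := by omega
    exact_mod_cast h2
  -- from the sum to the mean
  have key : ∀ (m : Fin r → ℕ) (d : ℕ),
      (∑ j, (m j : ℝ)) * (r : ℝ) ^ ((1 : ℝ) / ((k + 2 : ℕ) : ℝ)) ≤ d * r →
      (∑ j, (m j : ℝ)) / r * (r : ℝ) ^ ((1 : ℝ) / ((k + 2 : ℕ) : ℝ)) ≤ (d : ℝ) := by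
    intro m d h
    rw [div_mul_eq_mul_div, div_le_iff₀ hr0]
    exact h
  have key2 : ∀ n d : ℕ,
      (∑ _j : Fin r, (n : ℝ)) / r * (r : ℝ) ^ ((1 : ℝ) / ((k + 2 : ℕ) : ℝ)) ≤ (d : ℝ) →
      (n : ℝ) * (r : ℝ) ^ ((1 : ℝ) / ((k + 2 : ℕ) : ℝ)) ≤ (d : ℝ) := by
    intro n d h
    rw [Finset.sum_const, Finset.card_univ, Fintype.card_fin, nsmul_eq_mul,
      mul_div_cancel_left₀ _ hr0.ne'] at h
    exact h
  refine ⟨?_, ?_⟩
  · obtain ⟨F, hF, hP⟩ := Pool.Agent.TH396.IN.main r k hr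
    refine ⟨F, hF, fun P hPF => ⟨?_, ?_⟩⟩
    · intro n d f hfd hf0 hfm
      exact key2 n d (key (fun _ => n) d (hP P hPF (fun _ => n) d f hfd hf0 hfm))
    · intro m d f hfd hf0 hfm
      exact key m d (hP P hPF m d f hfd hf0 hfm)
  · intro K _ _ P hP
    refine ⟨?_, ?_⟩
    · intro n d f hfd hf0 hfm
      exact key2 n d (key (fun _ => n) d
        (Pool.Agent.TH396.IN.main_field r k hr P hP (fun _ => n) d f hfd hf0 hfm))
    · intro m d f hfd hf0 hfm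
      exact key m d (Pool.Agent.TH396.IN.main_field r k hr P hP m d f hfd hf0 hfm)

end Pool.Agent.Results.MP_5499e5_ag.ManyPoints
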